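import Pool.Agent.H27.RigDef
import Pool.Agent.H27.Rig6

open Pool.Agent.H27.Rig

namespace Pool.Agent.Results.MP_260507_an.RigidInput

/-- Rigid input conjecture: nodes that are rigidly phase-related with shift `θ` (rigidly
synchronous when `θ = 0`) on a hyperbolic periodic orbit are input isomorphic. -/
theorem result (G : Net) (f : G.P → G.P) (hf : ContDiff ℝ 1 f) (ha : G.Adm f) (x : ℝ → G.P)
    (T : ℝ) (hx : IsPer f x T) (hh : Hyp f x T) (c d : Fin G.n) (θ : ℝ)
    (hr : G.Rigid f x T fun y S => ∀ t, Eqv (y t c) (y (t + θ * S / T) d)) :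
    (∃ β, G.IsIso c d β) ∧ ∀ τ : ℕ, Nat.card {e : Fin G.m // G.head e = c ∧ G.aty e = τ} =
      Nat.card {e : Fin G.m // G.head e = d ∧ G.aty e = τ} := by
  obtain ⟨Φ, hΦ⟩ := Net.exists_fam f hf ha x T hx hh _ hr 1 one_pos
  obtain ⟨β, hβ⟩ := Φ.phase c d (θ / T) fun p hp t => by
    obtain ⟨hS, hR, -⟩ := hΦ p hp
    have := hR (t * Φ.S p)
    have e1 : t * Φ.S p / Φ.S p = t := mul_div_cancel_right₀ _ hS.ne'
    have e2 : (t * Φ.S p + θ * Φ.S p / T) / Φ.S p = t + θ / T := by field_simp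
    simpa only [e1, e2] using this
  refine ⟨⟨β, hβ⟩, fun τ => Nat.card_congr ?_⟩
  exact ((Equiv.subtypeSubtypeEquivSubtypeInter (fun e => G.head e = c)
    (fun e => G.aty e = τ)).symm.trans (β.subtypeEquiv fun e => by rw [hβ.2 e])).trans
    (Equiv.subtypeSubtypeEquivSubtypeInter (fun e => G.head e = d) (fun e => G.aty e = τ))

end Pool.Agent.Results.MP_260507_an.RigidInput
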